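import Pool.Agent.Lib.helper24.Cash

set_option autoImplicit false

namespace Pool.Agent.Results.MP_88cfb8_co.QuasiPeriodic

open Pool.Agent.Lib.helper24.Cash

/-- Eventual quasi-periodicity of the cash thresholds for interval subtraction sets. -/
theorem result (L M : ℕ) (hL : 1 ≤ L) (hM : L ≤ M) : ∃ Θ : ℕ, ∀ n : ℕ, Θ ≤ n →
    (ff L M (n + L + M)).1 = (ff L M n).1 + M ∧ (ff L M (n + L + M)).2 = (ff L M n).2 + M :=
  main hL hM

end Pool.Agent.Results.MP_88cfb8_co.QuasiPeriodic
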